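import Pool.Agent.TOR.Stmts

set_option autoImplicit false

/-!
# Squad TOR, row HIT: the hitting set
-/

namespace Pool.Agent.TOR.H45

open MvPolynomial
open Pool.Agent.RS (FF io total numer)

theorem gexp_apply {q t : ℕ} (α : Fin t → Fin q) (l : ℕ) (j : Fin t) :
    gexp q α l (j : ℕ) = wt q (α j) l := by
  unfold gexp
  rw [Finsupp.finsetSum_apply, Finset.sum_eq_single j]
  · rw [Finsupp.single_eq_same]
  · intro i _ hi
    rw [Finsupp.single_apply, if_neg]
    intro h
    exact hi (Fin.ext h)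
  · intro h
    exact absurd (Finset.mem_univ j) h

/-- the vectors of `V` are supported in `{0, ..., n - 1}` -/
theorem supp {n D : ℕ} {V : Submodule ℚ (ℕ →₀ ℚ)} (hV : IntSpan n D V) {v : ℕ →₀ ℚ} (hv : v ∈ V)
    {l : ℕ} (hl : n ≤ l) : v l = 0 := by
  obtain ⟨G, hG, rfl⟩ := hV
  have h1 : Submodule.span ℚ (zvec '' (G : Set (ℕ →₀ ℤ))) ≤
      LinearMap.ker (Finsupp.lapply l : (ℕ →₀ ℚ) →ₗ[ℚ] ℚ) := by
    rw [Submodule.span_le]
    rintro _ ⟨g, hg, rfl⟩
    change zvec g l = 0
    unfold zvec
    rw [Finsupp.mapRange_apply, (hG g hg).2 l hl, Int.cast_zero]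
  exact h1 hv

theorem lin_apply {n D : ℕ} {V : Submodule ℚ (ℕ →₀ ℚ)} (hV : IntSpan n D V) {v : ℕ →₀ ℚ}
    (hv : v ∈ V) (e : ℕ → ℕ →₀ ℕ) (j : ℕ) :
    lin e v j = ∑ l ∈ Finset.range n, v l * ((e l j : ℕ) : ℚ) := by
  unfold lin
  rw [Finsupp.linearCombination_apply, Finsupp.sum, Finsupp.finsetSum_apply]
  have h1 : ∀ l, (v l • vec (e l)) j = v l * ((e l j : ℕ) : ℚ) := by
    intro l
    rw [Finsupp.smul_apply, smul_eq_mul]
    unfold vec
    rw [Finsupp.mapRange_apply]
  rw [Finset.sum_congr rfl fun l _ => h1 l]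
  refine Finset.sum_subset ?_ ?_
  · intro l hl
    rw [Finset.mem_range]
    by_contra h
    exact (Finsupp.mem_support_iff.1 hl) (supp hV hv (not_lt.1 h))
  · intro l _ hl
    rw [Finsupp.notMem_support_iff.1 hl, zero_mul]

theorem vars_prod {E : Type} [Field E] {n : ℕ} (S : List (MvPolynomial ℕ E))
    (h : ∀ F ∈ S, F.vars ⊆ Finset.range n) : S.prod.vars ⊆ Finset.range n := by
  induction S with
  | nil =>
    rw [List.prod_nil, MvPolynomial.vars_one]
    exact Finset.empty_subset _
  | cons F S ih =>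
    rw [List.prod_cons]
    refine (MvPolynomial.vars_mul _ _).trans (Finset.union_subset ?_ ?_)
    · exact h F (List.mem_cons_self)
    · exact ih fun F' hF' => h F' (List.mem_cons_of_mem _ hF')

theorem vars_cmp (dul : DulStmt) {E : Type} [Field E] {k c n s D : ℕ} {F : MvPolynomial ℕ E}
    (hF : IsCmp E k c n s D F) : F.vars ⊆ Finset.range n := by
  classical
  obtain ⟨m, T, C, hT, _, rfl⟩ := hF
  rw [MvPolynomial.aeval_def, MvPolynomial.eval₂_eq]
  refine (MvPolynomial.vars_sum_subset _ _).trans ?_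
  refine Finset.biUnion_subset.2 fun d _ => ?_
  refine (MvPolynomial.vars_mul _ _).trans (Finset.union_subset ?_ ?_)
  · rw [MvPolynomial.algebraMap_eq, MvPolynomial.vars_C]
    exact Finset.empty_subset _
  · refine (MvPolynomial.vars_prod _).trans (Finset.biUnion_subset.2 fun i _ => ?_)
    exact (MvPolynomial.vars_pow _ _).trans ((dul E).2 c n s D (T i) (hT i))

/-- evaluation of the image -/
theorem eval_sub {E : Type} [Field E] {n q t : ℕ} (α : Fin t → Fin q) (z : ℕ → E)
    (G : MvPolynomial ℕ E) (hG : G.vars ⊆ Finset.range n) :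
    eval z (sub (gexp q α) G) = eval (tpoint n q α fun j : Fin t => z j) G := by
  refine MvPolynomial.hom_congr_vars (f₁ := (eval z).comp (sub (gexp q α)).toRingHom)
    (f₂ := eval (tpoint n q α fun j : Fin t => z j)) ?_ ?_ rfl
  · ext a
    simp [sub]
  · intro i hi _
    have hin : i < n := Finset.mem_range.1 (hG hi)
    change eval z (sub (gexp q α) (X i)) = _
    unfold sub
    rw [aeval_X, eval_X]
    unfold tpoint
    rw [if_pos hin]
    unfold gexp
    rw [MvPolynomial.monomial_sum_one, map_prod]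
    refine Finset.prod_congr rfl fun j _ => ?_
    rw [eval_monomial, one_mul, Finsupp.prod_single_index]
    · rfl
    · exact pow_zero _

theorem hit (mln : MlnStmt) (mod : ModStmt) (mai : MaiStmt) (num : NumStmt) (dul : DulStmt) :
    HitStmt := by
  intro E _ _ k c n s D t q hq ht hqb S hS hSF hS0
  obtain ⟨hn1, hn2, hn3⟩ := num k c n s D
  have hE : Infinite E := inferInstance
  have hF0 : ∀ i : Fin S.length, S.get i ≠ 0 := by
    intro i h
    exact hS0 (List.prod_eq_zero (h ▸ List.get_mem S i))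
  have hFc : ∀ i : Fin S.length, IsCmp E k c n s D (S.get i) := fun i => hSF _ (List.get_mem S i)
  choose ρ Δ ι fι V hρ hc' hcard hInt hfin hmain using
    fun i : Fin S.length => mai E k c n s D (S.get i) (hFc i) (hF0 i)
  have hch : CharZero (FF E) :=
    charZero_of_injective_algebraMap (IsFractionRing.injective (MvPolynomial ℕ E) (FF E))
  obtain ⟨β, hβ⟩ := mln (FF E) n q k (Fin S.length) ρ Δ hq (by
    rw [Fintype.card_fin]
    calc S.length * n ≤ s * n := Nat.mul_le_mul_right n hS
      _ < _ := hn2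
      _ ≤ q := hqb) hρ hc'
  obtain ⟨α', hα'⟩ := mod n (6 * k * c + 1) ((2 * k + 1) * D) q (Σ i, ι i)
    (fun x => V x.1 x.2) hq (by
      rw [Fintype.card_sigma]
      calc (∑ i, Fintype.card (ι i)) * n
          ≤ (∑ _i : Fin S.length, (k.factorial * (s + s * s) ^ k + 1) ^ 2) * n :=
            Nat.mul_le_mul_right n (Finset.sum_le_sum fun i _ => hcard i)
        _ = S.length * (k.factorial * (s + s * s) ^ k + 1) ^ 2 * n := by
            rw [Finset.sum_const, Finset.card_univ, Fintype.card_fin, smul_eq_mul]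
        _ ≤ s * (k.factorial * (s + s * s) ^ k + 1) ^ 2 * n :=
            Nat.mul_le_mul_right n (Nat.mul_le_mul_right _ hS)
        _ < _ := hn1
        _ ≤ q := hqb)
    (hn3.trans_le hqb) (fun x => hInt x.1 x.2) (fun x => hfin x.1 x.2)
  -- the exponents
  obtain ⟨α, hα⟩ : ∃ α : Fin t → Fin q, ∀ j : Fin t, α j =
      if h : (j : ℕ) < 6 * k * c + 1 then α' ⟨j, h⟩
      else if h' : (j : ℕ) - (6 * k * c + 1) < k then β ⟨(j : ℕ) - (6 * k * c + 1), h'⟩
      else ⟨0, hq.pos⟩ := ⟨_, fun _ => rfl⟩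
  have hsub : ∀ i : Fin S.length, sub (gexp q α) (S.get i) ≠ 0 := by
    intro i
    refine hmain i (gexp q α) (fun j => 6 * k * c + 1 + j) ?_ ?_
    · have h1 : (fun (j : Fin (ρ i)) l => if l < n then
          ((gexp q α l (6 * k * c + 1 + (j : ℕ)) : ℕ) : FF E) else 0) =
          (fun j l => if l < n then (wt q (β (Fin.castLE (hρ i) j)) l : FF E) else 0) := by
        funext j l
        have hj : (j : ℕ) < k := lt_of_lt_of_le j.2 (hρ i)
        have hjt : 6 * k * c + 1 + (j : ℕ) < t := by omega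
        have h2 := gexp_apply α l ⟨6 * k * c + 1 + (j : ℕ), hjt⟩
        have h3 : α ⟨6 * k * c + 1 + (j : ℕ), hjt⟩ = β (Fin.castLE (hρ i) j) := by
          rw [hα, dif_neg (by dsimp only; omega), dif_pos (by dsimp only; omega)]
          congr 1
          apply Fin.ext
          dsimp only [Fin.val_castLE]
          omega
        rw [h3] at h2
        rw [show gexp q α l (6 * k * c + 1 + (j : ℕ)) = wt q (β (Fin.castLE (hρ i) j)) l from h2]
      rw [h1]
      exact hβ i
    · intro x v hv hlv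
      refine hα' ⟨i, x⟩ v hv fun j => ?_
      have hjt : (j : ℕ) < t := by
        have := j.2
        omega
      have h2 : α ⟨(j : ℕ), hjt⟩ = α' j := by
        rw [hα, dif_pos j.2]
      have h3 := congrArg (fun w : ℕ →₀ ℚ => w (j : ℕ)) hlv
      beta_reduce at h3
      rw [lin_apply (hInt i x) hv, Finsupp.zero_apply] at h3
      rw [← h3]
      refine Finset.sum_congr rfl fun l _ => ?_
      have h4 := gexp_apply α l ⟨(j : ℕ), hjt⟩
      rw [h2] at h4
      rw [show gexp q α l (j : ℕ) = wt q (α' j) l from h4]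
  have hprod : sub (gexp q α) S.prod ≠ 0 := by
    rw [map_list_prod]
    apply List.prod_ne_zero
    intro h
    obtain ⟨F, hF, h0⟩ := List.mem_map.1 h
    obtain ⟨i, hi⟩ := List.get_of_mem hF
    exact hsub i (by rw [hi]; exact h0)
  obtain ⟨z, hz⟩ : ∃ z : ℕ → E, eval z (sub (gexp q α) S.prod) ≠ 0 := by
    by_contra h
    push Not at h
    apply hprod
    apply MvPolynomial.funext
    intro z
    rw [h z, map_zero]
  refine ⟨α, fun j => z j, ?_⟩
  rw [← eval_sub α z S.prod (vars_prod S fun F hF => vars_cmp dul (hSF F hF))]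
  exact hz

end Pool.Agent.TOR.H45
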